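import Pool.Agent.H14.AVS.S1

/-!
# AVS, module SLP: the slope of the line through two differences
-/

set_option autoImplicit false

namespace Pool.AVS

open Polynomial Matrix Pool.AVR

namespace SLP

variable {K : Type} [Field K]

theorem bilA (u v : Fin 3 → K) :
    bil (AA K) u v = u 0 * v 2 + u 1 * v 1 + u 2 * v 0 := by
  simp [bil, AA, Matrix.mulVec, dotProduct, Fin.sum_univ_three]

theorem bilB (B : Matrix (Fin 3) (Fin 3) K) (hB : Bᵀ = B) (u v : Fin 3 → K) :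
    bil B u v = B 0 0 * (u 0 * v 0) + B 0 1 * (u 0 * v 1 + u 1 * v 0) +
      B 0 2 * (u 0 * v 2 + u 2 * v 0) + B 1 1 * (u 1 * v 1) +
      B 1 2 * (u 1 * v 2 + u 2 * v 1) + B 2 2 * (u 2 * v 2) := by
  have h10 : B 1 0 = B 0 1 := by conv_lhs => rw [← hB, Matrix.transpose_apply]
  have h20 : B 2 0 = B 0 2 := by conv_lhs => rw [← hB, Matrix.transpose_apply]
  have h21 : B 2 1 = B 1 2 := by conv_lhs => rw [← hB, Matrix.transpose_apply]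
  simp only [bil, Matrix.mulVec, dotProduct, Fin.sum_univ_three, h10, h20, h21]
  ring

/-- The components of the vector equation in `Dif`. -/
theorem comps (B : Matrix (Fin 3) (Fin 3) K) (hB : Bᵀ = B) (z z' : Fin 3 → K) (w w' x y : K)
    (h : (x • AA K - B) *ᵥ (w' • z + w • z') = y • crossProduct z z') :
    (x * (w' * z 2 + w * z' 2) - (B 0 0 * (w' * z 0 + w * z' 0) + B 0 1 * (w' * z 1 + w * z' 1) +
      B 0 2 * (w' * z 2 + w * z' 2)) = y * (z 1 * z' 2 - z 2 * z' 1)) ∧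
    (x * (w' * z 1 + w * z' 1) - (B 0 1 * (w' * z 0 + w * z' 0) + B 1 1 * (w' * z 1 + w * z' 1) +
      B 1 2 * (w' * z 2 + w * z' 2)) = y * (z 2 * z' 0 - z 0 * z' 2)) ∧
    (x * (w' * z 0 + w * z' 0) - (B 0 2 * (w' * z 0 + w * z' 0) + B 1 2 * (w' * z 1 + w * z' 1) +
      B 2 2 * (w' * z 2 + w * z' 2)) = y * (z 0 * z' 1 - z 1 * z' 0)) := by
  have h10 : B 1 0 = B 0 1 := by conv_lhs => rw [← hB, Matrix.transpose_apply]
  have h20 : B 2 0 = B 0 2 := by conv_lhs => rw [← hB, Matrix.transpose_apply]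
  have h21 : B 2 1 = B 1 2 := by conv_lhs => rw [← hB, Matrix.transpose_apply]
  have e0 := congrFun h 0
  have e1 := congrFun h 1
  have e2 := congrFun h 2
  simp [AA, Matrix.mulVec, dotProduct, Fin.sum_univ_three, cross_apply, h10, h20, h21] at e0 e1 e2
  refine ⟨?_, ?_, ?_⟩
  · linear_combination e0
  · linear_combination e1
  · linear_combination e2

/-- The determinant of three vectors. -/
def tri (u v w : Fin 3 → K) : K :=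
  w 0 * (u 1 * v 2 - u 2 * v 1) + w 1 * (u 2 * v 0 - u 0 * v 2) + w 2 * (u 0 * v 1 - u 1 * v 0)

theorem dot1 (B : Matrix (Fin 3) (Fin 3) K) (hB : Bᵀ = B) (z z' v : Fin 3 → K) (w w' x y : K)
    (h : (x • AA K - B) *ᵥ (w' • z + w • z') = y • crossProduct z z') :
    x * (w' * bil (AA K) z v + w * bil (AA K) z' v) - (w' * bil B z v + w * bil B z' v) =
      y * tri z z' v := by
  obtain ⟨e0, e1, e2⟩ := comps B hB z z' w w' x y h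
  rw [bilA, bilA, bilB B hB, bilB B hB, tri]
  linear_combination v 0 * e0 + v 1 * e1 + v 2 * e2

theorem gramdet (u v w : Fin 3 → K) (hu : bil (AA K) u u = 0) (hv : bil (AA K) v v = 0)
    (hw : bil (AA K) w w = 0) :
    tri u v w ^ 2 = -2 * bil (AA K) u v * bil (AA K) u w * bil (AA K) v w := by
  have key : tri u v w ^ 2 = -(bil (AA K) u u * (bil (AA K) v v * bil (AA K) w w -
      bil (AA K) v w ^ 2) - bil (AA K) u v * (bil (AA K) u v * bil (AA K) w w -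
      bil (AA K) v w * bil (AA K) u w) + bil (AA K) u w * (bil (AA K) u v * bil (AA K) v w -
      bil (AA K) v v * bil (AA K) u w)) := by
    simp only [bilA, tri]
    ring
  rw [key, hu, hv, hw]
  ring

theorem gramtr (B : Matrix (Fin 3) (Fin 3) K) (hB : Bᵀ = B) (u v w : Fin 3 → K)
    (hu : bil (AA K) u u = 0) (hv : bil (AA K) v v = 0) (hw : bil (AA K) w w = 0) :
    tri u v w ^ 2 * ia B = -(bil (AA K) v w ^ 2 * bil B u u + bil (AA K) u w ^ 2 * bil B v v +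
      bil (AA K) u v ^ 2 * bil B w w) + 2 * (bil (AA K) u w * bil (AA K) v w * bil B u v +
      bil (AA K) u v * bil (AA K) v w * bil B u w + bil (AA K) u v * bil (AA K) u w * bil B v w) := by
  have key : tri u v w ^ 2 * ia B =
      (bil (AA K) v v * bil (AA K) w w - bil (AA K) v w ^ 2) * bil B u u +
      (bil (AA K) u u * bil (AA K) w w - bil (AA K) u w ^ 2) * bil B v v +
      (bil (AA K) u u * bil (AA K) v v - bil (AA K) u v ^ 2) * bil B w w +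
      2 * ((bil (AA K) u w * bil (AA K) v w - bil (AA K) u v * bil (AA K) w w) * bil B u v +
      (bil (AA K) u v * bil (AA K) v w - bil (AA K) u w * bil (AA K) v v) * bil B u w +
      (bil (AA K) u v * bil (AA K) u w - bil (AA K) v w * bil (AA K) u u) * bil B v w) := by
    simp only [bilA, bilB B hB, tri, ia]
    ring
  rw [key, hu, hv, hw]
  ring

theorem part2 {u0 u1 u2 v0 v1 v2 B0 B1 B2 B3 B4 B5 w₀ w₁ x₁ x₂ y₁ y₂ : K} (hw : w₁ ≠ 0)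
    (hp : u0 * v2 + u1 * v1 + u2 * v0 ≠ 0)
    (a0 : u0 * u2 + u1 * u1 + u2 * u0 = 0) (a1 : v0 * v2 + v1 * v1 + v2 * v0 = 0)
    (b1 : w₁ ^ 2 = -(B0 * (v0 * v0) + B1 * (v0 * v1 + v1 * v0) + B2 * (v0 * v2 + v2 * v0) +
      B3 * (v1 * v1) + B4 * (v1 * v2 + v2 * v1) + B5 * (v2 * v2)))
    (q1 : x₁ * (u0 * v2 + u1 * v1 + u2 * v0) = B0 * (u0 * v0) + B1 * (u0 * v1 + u1 * v0) +
      B2 * (u0 * v2 + u2 * v0) + B3 * (u1 * v1) + B4 * (u1 * v2 + u2 * v1) + B5 * (u2 * v2) -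
      w₀ * w₁)
    (q2 : x₂ * (u0 * v2 + u1 * v1 + u2 * v0) = B0 * (u0 * v0) + B1 * (u0 * v1 + u1 * v0) +
      B2 * (u0 * v2 + u2 * v0) + B3 * (u1 * v1) + B4 * (u1 * v2 + u2 * v1) + B5 * (u2 * v2) -
      w₀ * -w₁)
    (e0 : x₁ * (w₁ * u2 + w₀ * v2) - (B0 * (w₁ * u0 + w₀ * v0) + B1 * (w₁ * u1 + w₀ * v1) +
      B2 * (w₁ * u2 + w₀ * v2)) = y₁ * (u1 * v2 - u2 * v1))
    (e1 : x₁ * (w₁ * u1 + w₀ * v1) - (B1 * (w₁ * u0 + w₀ * v0) + B3 * (w₁ * u1 + w₀ * v1) +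
      B4 * (w₁ * u2 + w₀ * v2)) = y₁ * (u2 * v0 - u0 * v2))
    (e2 : x₁ * (w₁ * u0 + w₀ * v0) - (B2 * (w₁ * u0 + w₀ * v0) + B4 * (w₁ * u1 + w₀ * v1) +
      B5 * (w₁ * u2 + w₀ * v2)) = y₁ * (u0 * v1 - u1 * v0))
    (f0 : x₂ * (-w₁ * u2 + w₀ * v2) - (B0 * (-w₁ * u0 + w₀ * v0) + B1 * (-w₁ * u1 + w₀ * v1) +
      B2 * (-w₁ * u2 + w₀ * v2)) = y₂ * (u1 * v2 - u2 * v1))
    (f1 : x₂ * (-w₁ * u1 + w₀ * v1) - (B1 * (-w₁ * u0 + w₀ * v0) + B3 * (-w₁ * u1 + w₀ * v1) +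
      B4 * (-w₁ * u2 + w₀ * v2)) = y₂ * (u2 * v0 - u0 * v2))
    (f2 : x₂ * (-w₁ * u0 + w₀ * v0) - (B2 * (-w₁ * u0 + w₀ * v0) + B4 * (-w₁ * u1 + w₀ * v1) +
      B5 * (-w₁ * u2 + w₀ * v2)) = y₂ * (u0 * v1 - u1 * v0)) :
    (y₁ + y₂) ^ 2 = (x₁ - x₂) ^ 2 * (x₁ + x₂ + (2 * (B0 * v0 + B1 * v1 + B2 * v2) *
      (B2 * v0 + B4 * v1 + B5 * v2) + (B1 * v0 + B3 * v1 + B4 * v2) ^ 2) / w₁ ^ 2) := by
  obtain ⟨p, hpd⟩ : ∃ p, p = u0 * v2 + u1 * v1 + u2 * v0 := ⟨_, rfl⟩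
  obtain ⟨b, hbd⟩ : ∃ b, b = B0 * (u0 * v0) + B1 * (u0 * v1 + u1 * v0) +
      B2 * (u0 * v2 + u2 * v0) + B3 * (u1 * v1) + B4 * (u1 * v2 + u2 * v1) + B5 * (u2 * v2) :=
    ⟨_, rfl⟩
  rw [← hpd] at hp q1 q2
  rw [← hbd] at q1 q2
  obtain ⟨t0, ht0⟩ : ∃ t, t = B0 * v0 + B1 * v1 + B2 * v2 := ⟨_, rfl⟩
  obtain ⟨t1, ht1⟩ : ∃ t, t = B1 * v0 + B3 * v1 + B4 * v2 := ⟨_, rfl⟩
  obtain ⟨t2, ht2⟩ : ∃ t, t = B2 * v0 + B4 * v1 + B5 * v2 := ⟨_, rfl⟩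
  rw [← ht0, ← ht1, ← ht2]
  have s0 : -2 * w₀ * (w₁ ^ 2 * u2 - b * v2 + p * t0) = p * (y₁ + y₂) * (u1 * v2 - u2 * v1) := by
    rw [ht0]
    linear_combination p * (e0 + f0) - w₁ * u2 * (q1 - q2) - w₀ * v2 * (q1 + q2)
  have s1 : -2 * w₀ * (w₁ ^ 2 * u1 - b * v1 + p * t1) = p * (y₁ + y₂) * (u2 * v0 - u0 * v2) := by
    rw [ht1]
    linear_combination p * (e1 + f1) - w₁ * u1 * (q1 - q2) - w₀ * v1 * (q1 + q2)
  have s2 : -2 * w₀ * (w₁ ^ 2 * u0 - b * v0 + p * t2) = p * (y₁ + y₂) * (u0 * v1 - u1 * v0) := by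
    rw [ht2]
    linear_combination p * (e2 + f2) - w₁ * u0 * (q1 - q2) - w₀ * v0 * (q1 + q2)
  have hc : 2 * (u1 * v2 - u2 * v1) * (u0 * v1 - u1 * v0) + (u2 * v0 - u0 * v2) ^ 2 = p ^ 2 := by
    rw [hpd]
    linear_combination (-(v0 * v2 + v1 * v1 + v2 * v0)) * a0
  have hut : u0 * t0 + u1 * t1 + u2 * t2 = b := by
    rw [ht0, ht1, ht2, hbd]; ring
  have hvt : v0 * t0 + v1 * t1 + v2 * t2 = -w₁ ^ 2 := by
    rw [ht0, ht1, ht2]; linear_combination b1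
  have hV : 2 * (w₁ ^ 2 * u2 - b * v2 + p * t0) * (w₁ ^ 2 * u0 - b * v0 + p * t2) +
      (w₁ ^ 2 * u1 - b * v1 + p * t1) ^ 2 = p ^ 2 * (2 * t0 * t2 + t1 ^ 2) + 2 * b * p * w₁ ^ 2 := by
    linear_combination w₁ ^ 4 * a0 + b ^ 2 * a1 + 2 * w₁ ^ 2 * p * hut - 2 * b * p * hvt +
      2 * w₁ ^ 2 * b * hpd
  have m1 : p ^ 4 * (y₁ + y₂) ^ 2 = 4 * w₀ ^ 2 * (p ^ 2 * (2 * t0 * t2 + t1 ^ 2) +
      2 * b * p * w₁ ^ 2) := by
    rw [← hV]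
    have : p ^ 4 * (y₁ + y₂) ^ 2 = (p * (y₁ + y₂)) ^ 2 * p ^ 2 := by ring
    rw [this, ← hc]
    have : (p * (y₁ + y₂)) ^ 2 * (2 * (u1 * v2 - u2 * v1) * (u0 * v1 - u1 * v0) +
        (u2 * v0 - u0 * v2) ^ 2) = 2 * (p * (y₁ + y₂) * (u1 * v2 - u2 * v1)) *
        (p * (y₁ + y₂) * (u0 * v1 - u1 * v0)) + (p * (y₁ + y₂) * (u2 * v0 - u0 * v2)) ^ 2 := by
      ring
    rw [this, ← s0, ← s1, ← s2]
    ring
  have m2 : p ^ 4 * ((x₁ - x₂) ^ 2 * (x₁ + x₂ + (2 * t0 * t2 + t1 ^ 2) / w₁ ^ 2)) =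
      4 * w₀ ^ 2 * (p ^ 2 * (2 * t0 * t2 + t1 ^ 2) + 2 * b * p * w₁ ^ 2) := by
    have n1 : p * (x₁ - x₂) = -2 * w₀ * w₁ := by linear_combination q1 - q2
    have n2 : p * (x₁ + x₂) = 2 * b := by linear_combination q1 + q2
    have : p ^ 4 * ((x₁ - x₂) ^ 2 * (x₁ + x₂ + (2 * t0 * t2 + t1 ^ 2) / w₁ ^ 2)) =
        (p * (x₁ - x₂)) ^ 2 * (p * (p * (x₁ + x₂)) + p ^ 2 * (2 * t0 * t2 + t1 ^ 2) / w₁ ^ 2) := by
      ring
    rw [this, n1, n2]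
    field_simp
    ring
  exact mul_left_cancel₀ (pow_ne_zero 4 hp) (m1.trans m2.symm)

end SLP

open SLP in
theorem SLP_thm : SLPStmt := by
  intro K _ h2 B z₀ z₁ z₂ w₀ w₁ w₂ x₁ y₁ x₂ y₂ hB c0 c1 c2 d1 d2
  obtain ⟨-, a0, b0⟩ := c0
  obtain ⟨-, a1, b1⟩ := c1
  obtain ⟨-, a2, b2⟩ := c2
  obtain ⟨p1, q1, r1⟩ := d1
  obtain ⟨p2, q2, r2⟩ := d2
  have sA : ∀ u v : Fin 3 → K, bil (AA K) v u = bil (AA K) u v := by
    intro u v; rw [bilA, bilA]; ring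
  have sB : ∀ u v : Fin 3 → K, bil B v u = bil B u v := by
    intro u v; rw [bilB B hB, bilB B hB]; ring
  constructor
  · intro x y d
    obtain ⟨p3, q3, r3⟩ := d
    have k1 := dot1 B hB z₀ z₁ z₂ w₀ w₁ x₁ y₁ r1
    have k2 := dot1 B hB z₀ z₂ z₁ w₀ w₂ x₂ y₂ r2
    have ht : tri z₀ z₂ z₁ = - tri z₀ z₁ z₂ := by simp only [tri]; ring
    rw [ht, sA z₁ z₂, sB z₁ z₂] at k2
    have gd := gramdet z₀ z₁ z₂ a0 a1 a2
    have gt := gramtr B hB z₀ z₁ z₂ a0 a1 a2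
    have hD : tri z₀ z₁ z₂ ≠ 0 := by
      intro h0
      rw [h0] at gd
      have : (2 : K) * bil (AA K) z₀ z₁ * bil (AA K) z₀ z₂ * bil (AA K) z₁ z₂ = 0 := by
        linear_combination gd
      simp [h2, p1, p2, p3] at this
    set D := tri z₀ z₁ z₂ with hDdef
    set p := bil (AA K) z₀ z₁ with hp
    set q := bil (AA K) z₀ z₂ with hq
    set r := bil (AA K) z₁ z₂ with hr
    have e : (y₁ + y₂) * D = (x₁ - x₂) * (w₁ * q + w₂ * p + w₀ * r) := by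
      linear_combination -k1 + k2 - w₂ * q1 + w₁ * q2
    have e2 : D ^ 2 * (ia B + x₁ + x₂ + x) = (w₁ * q + w₂ * p + w₀ * r) ^ 2 := by
      have : D ^ 2 * (ia B + x₁ + x₂ + x) = D ^ 2 * ia B + (x₁ + x₂ + x) * D ^ 2 := by ring
      rw [this, gt, gd]
      linear_combination (-2 * q * r) * q1 + (-2 * p * r) * q2 + (-2 * p * q) * q3 +
        (-r ^ 2) * b0 - q ^ 2 * b1 - p ^ 2 * b2
    have : D ^ 2 * ((y₁ + y₂) ^ 2) = D ^ 2 * ((x₁ - x₂) ^ 2 * (ia B + x₁ + x₂ + x)) := by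
      linear_combination ((y₁ + y₂) * D + (x₁ - x₂) * (w₁ * q + w₂ * p + w₀ * r)) * e -
        (x₁ - x₂) ^ 2 * e2
    exact mul_left_cancel₀ (pow_ne_zero 2 hD) this
  · intro hw hz hw2
    subst hz
    subst hw2
    obtain ⟨e0, e1, e2⟩ := comps B hB z₀ z₂ w₀ w₁ x₁ y₁ r1
    obtain ⟨f0, f1, f2⟩ := comps B hB z₀ z₂ w₀ (-w₁) x₂ y₂ r2
    have hbab : bil (B * AA K * B) z₂ z₂ = 2 * (B 0 0 * z₂ 0 + B 0 1 * z₂ 1 + B 0 2 * z₂ 2) *
        (B 0 2 * z₂ 0 + B 1 2 * z₂ 1 + B 2 2 * z₂ 2) +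
        (B 0 1 * z₂ 0 + B 1 1 * z₂ 1 + B 1 2 * z₂ 2) ^ 2 := by
      have h10 : B 1 0 = B 0 1 := by conv_lhs => rw [← hB, Matrix.transpose_apply]
      have h20 : B 2 0 = B 0 2 := by conv_lhs => rw [← hB, Matrix.transpose_apply]
      have h21 : B 2 1 = B 1 2 := by conv_lhs => rw [← hB, Matrix.transpose_apply]
      simp [bil, AA, Matrix.mulVec, Matrix.mul_apply, dotProduct, Fin.sum_univ_three, h10, h20, h21]
      ring
    rw [hbab]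
    clear hbab
    rw [bilB B hB] at b0 b1
    rw [bilB B hB, bilA] at q1 q2
    rw [bilA] at a0 a1 p1
    clear r1 r2 p2 a2 b2 sA sB hB
    generalize z₀ 0 = u0 at *
    generalize z₀ 1 = u1 at *
    generalize z₀ 2 = u2 at *
    generalize z₂ 0 = v0 at *
    generalize z₂ 1 = v1 at *
    generalize z₂ 2 = v2 at *
    generalize B 0 0 = B0 at *
    generalize B 0 1 = B1 at *
    generalize B 0 2 = B2 at *
    generalize B 1 1 = B3 at *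
    generalize B 1 2 = B4 at *
    generalize B 2 2 = B5 at *
    exact part2 hw p1 a0 a1 b1 q1 q2 e0 e1 e2 f0 f1 f2

end Pool.AVS
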