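import Pool.Agent.H61.AVS.Fib

/-!
# AVS, module TB1: few degenerate matrices
-/

set_option autoImplicit false

namespace Pool.AVS

open Polynomial Matrix Pool.AVR

namespace TB1

variable {F : Type} [Field F]

theorem ncard_le_one_of {S : Set F[X]} (c : F[X]) (h : ∀ p ∈ S, p = c) : S.ncard ≤ 1 := by
  have : S ⊆ {c} := fun p hp => h p hp
  exact (Set.ncard_le_ncard this (Set.finite_singleton c)).trans (by simp)

theorem cubic3 (a b c d : F[X]) (ha : a ≠ 0) (S : Set F[X])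
    (h : ∀ p ∈ S, a * p ^ 3 + b * p ^ 2 + c * p + d = 0) : S.ncard ≤ 3 := by
  classical
  set Q : F[X][X] := C a * X ^ 3 + C b * X ^ 2 + C c * X + C d with hQ
  have hdeg : Q.natDegree = 3 := by rw [hQ]; exact natDegree_cubic ha
  have hQ0 : Q ≠ 0 := by
    intro h0
    rw [h0, natDegree_zero] at hdeg
    exact absurd hdeg (by norm_num)
  have hS : S ⊆ (Q.roots.toFinset : Set F[X]) := by
    intro p hp
    rw [Finset.mem_coe, Multiset.mem_toFinset, mem_roots hQ0, IsRoot.def, hQ]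
    simp only [eval_add, eval_mul, eval_C, eval_pow, eval_X]
    exact h p hp
  calc S.ncard ≤ (Q.roots.toFinset : Set F[X]).ncard := Set.ncard_le_ncard hS (Finset.finite_toSet _)
    _ = Q.roots.toFinset.card := Set.ncard_coe_finset _
    _ ≤ Multiset.card Q.roots := Multiset.toFinset_card_le _
    _ ≤ Q.natDegree := card_roots' Q
    _ = 3 := hdeg

end TB1

open TB1 Fib in
theorem TB1_thm : TB1Stmt := by
  intro F _ _ h2 m ε hε
  obtain ⟨N, hN⟩ := exists_nat_gt (6 / ε)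
  refine ⟨m + N, ?_⟩
  intro n hn
  have hmn : m ≤ n := by omega
  have h2' : (2 : F[X]) ≠ 0 := by
    intro h
    apply h2
    have := congrArg (fun p : F[X] => p.coeff 0) h
    simpa using this
  obtain ⟨hfin, hcard⟩ := cnb_thm F n m hmn
  set q := Nat.card F with hq
  have hq2 : 2 ≤ q := Finite.one_lt_card
  set X1 : Set (Matrix (Fin 3) (Fin 3) F[X]) := {B | Bd n m B ∧ B 0 0 = 0} with hX1
  set X2 : Set (Matrix (Fin 3) (Fin 3) F[X]) := {B | Bd n m B ∧ ia B = 0} with hX2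
  set X3 : Set (Matrix (Fin 3) (Fin 3) F[X]) := {B | Bd n m B ∧ B 0 0 ≠ 0 ∧ nuB B = 0} with hX3
  set X4 : Set (Matrix (Fin 3) (Fin 3) F[X]) := {B | Bd n m B ∧ B 0 0 ≠ 0 ∧ dB B = 0} with hX4
  have hsub : {B : Matrix (Fin 3) (Fin 3) F[X] | Bd n m B ∧
      (B 0 0 = 0 ∨ ia B = 0 ∨ nuB B = 0 ∨ dB B = 0)} ⊆ ((X1 ∪ X2) ∪ X3) ∪ X4 := by
    rintro B ⟨hB, h⟩
    by_cases h0 : B 0 0 = 0
    · exact Or.inl (Or.inl (Or.inl ⟨hB, h0⟩))
    · rcases h with h | h | h | h
      · exact absurd h h0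
      · exact Or.inl (Or.inl (Or.inr ⟨hB, h⟩))
      · exact Or.inl (Or.inr ⟨hB, h0, h⟩)
      · exact Or.inr ⟨hB, h0, h⟩
  have hXf : (((X1 ∪ X2) ∪ X3) ∪ X4).Finite := by
    refine hfin.subset ?_
    rintro B (((hB | hB) | hB) | hB) <;> exact hB.1
  have f1 := fib (F := F) hmn 0 0 (2 * n - 2 * m) (by simp [dd]; omega) X1 (fun B hB => hB.1) 1 (by
    intro B hB
    refine ncard_le_one_of 0 ?_
    intro p hp
    have := hp.2
    rwa [upd_self] at this)
  have f2 := fib (F := F) hmn 1 1 (2 * n) (by simp [dd]) X2 (fun B hB => hB.1) 1 (by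
    intro B hB
    refine ncard_le_one_of (-(2 * B 0 2)) ?_
    intro p hp
    have := hp.2
    simp only [ia, upd_apply] at this
    simp at this
    linear_combination -this)
  have f3 := fib (F := F) hmn 1 2 (2 * n + m) (by simp [dd]) X3 (fun B hB => hB.1) 1 (by
    intro B hB
    by_cases h0 : B 0 0 = 0
    · have : {p | upd 1 2 B p ∈ X3} = ∅ := by
        ext p
        simp only [Set.mem_setOf_eq, Set.mem_empty_iff_false, iff_false]
        rintro ⟨-, h, -⟩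
        apply h
        simp [upd_apply, h0]
      rw [this]; simp
    · have hsub : {p | upd 1 2 B p ∈ X3}.Subsingleton := by
        intro p hp p' hp'
        have e := hp.2.2
        have e' := hp'.2.2
        simp only [nuB, upd_apply] at e e'
        simp at e e'
        have : B 0 0 ^ 2 * (p - p') = 0 := by linear_combination e - e'
        rcases mul_eq_zero.mp this with h | h
        · exact absurd h (pow_ne_zero 2 h0)
        · exact sub_eq_zero.mp h
      rcases Set.eq_empty_or_nonempty {p | upd 1 2 B p ∈ X3} with he | ⟨p₀, hp₀⟩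
      · rw [he]; simp
      · exact ncard_le_one_of p₀ (fun p hp => hsub hp hp₀))
  have f4 := fib (F := F) hmn 2 2 (2 * n + 2 * m) (by simp [dd]; ring) X4 (fun B hB => hB.1) 3 (by
    intro B hB
    by_cases h0 : B 0 0 = 0
    · have : {p | upd 2 2 B p ∈ X4} = ∅ := by
        ext p
        simp only [Set.mem_setOf_eq, Set.mem_empty_iff_false, iff_false]
        rintro ⟨-, h, -⟩
        apply h
        simp [upd_apply, h0]
      rw [this]; simp
    · have e10 : B 1 0 = B 0 1 := congrFun (congrFun hB 0) 1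
      have e20 : B 2 0 = B 0 2 := congrFun (congrFun hB 0) 2
      have e21 : B 2 1 = B 1 2 := congrFun (congrFun hB 1) 2
      obtain ⟨a, ha⟩ : ∃ a, a = -(2 * B 0 2 + B 1 1) := ⟨_, rfl⟩
      obtain ⟨b, hb⟩ : ∃ b, b = 2 * B 0 2 * B 1 1 - 2 * B 1 2 * B 0 1 + B 0 2 ^ 2 := ⟨_, rfl⟩
      obtain ⟨al, hal⟩ : ∃ al, al = B 0 0 := ⟨_, rfl⟩
      obtain ⟨v, hv⟩ : ∃ v, v = B 0 0 * B 1 1 - B 0 1 ^ 2 := ⟨_, rfl⟩
      obtain ⟨c, hc⟩ : ∃ c, c = -(B 0 0 * B 1 2 ^ 2) + 2 * B 0 1 * B 0 2 * B 1 2 -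
        B 0 2 ^ 2 * B 1 1 := ⟨_, rfl⟩
      refine cubic3 (4 * al ^ 3) (a ^ 2 * al ^ 2 - 12 * b * al ^ 2 - 18 * a * al * v - 27 * v ^ 2)
        (-2 * a ^ 2 * b * al + 12 * b ^ 2 * al - 4 * a ^ 3 * v + 18 * a * (b * v - al * c) -
          54 * c * v) (a ^ 2 * b ^ 2 - 4 * b ^ 3 - 4 * a ^ 3 * c + 18 * a * b * c - 27 * c ^ 2) ?_ _ ?_
      · rw [hal]
        have : (4 : F[X]) = 2 ^ 2 := by norm_num
        rw [this]
        exact mul_ne_zero (pow_ne_zero 2 h2') (pow_ne_zero 3 h0)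
      · intro p hp
        have e := hp.2.2
        have ea : ia (upd 2 2 B p) = a := by rw [ha]; simp [ia, upd_apply]
        have eb : ib (upd 2 2 B p) = b - al * p := by
          rw [hb, hal]; simp [ib, upd_apply]; ring
        have ec : ic (upd 2 2 B p) = c + v * p := by
          rw [hc, hv]; simp [ic, Matrix.det_fin_three, upd_apply, e10, e20, e21]; ring
        rw [dB, ea, eb, ec, disc] at e
        linear_combination e)
  rw [← hq] at f1 f2 f3 f4
  set T := {B : Matrix (Fin 3) (Fin 3) F[X] | Bd n m B ∧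
      (B 0 0 = 0 ∨ ia B = 0 ∨ nuB B = 0 ∨ dB B = 0)}.ncard with hT
  have hT1 : T ≤ X1.ncard + X2.ncard + X3.ncard + X4.ncard :=
    (Set.ncard_le_ncard hsub hXf).trans ((Set.ncard_union_le _ _).trans
      (Nat.add_le_add_right ((Set.ncard_union_le _ _).trans
        (Nat.add_le_add_right (Set.ncard_union_le _ _) _)) _))
  have mono : ∀ (x D : ℕ), 2 * n - 2 * m ≤ D → x * q ^ (2 * n - 2 * m + 1) ≤ x * q ^ (D + 1) :=
    fun x D hD => Nat.mul_le_mul_left _ (Nat.pow_le_pow_right (by omega) (by omega))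
  have g2 := (mono X2.ncard (2 * n) (by omega)).trans f2
  have g3 := (mono X3.ncard (2 * n + m) (by omega)).trans f3
  have g4 := (mono X4.ncard (2 * n + 2 * m) (by omega)).trans f4
  have hsum : T * q ^ (2 * n - 2 * m + 1) ≤ 6 * q ^ (12 * n + 6) := by
    calc T * q ^ (2 * n - 2 * m + 1) ≤
        (X1.ncard + X2.ncard + X3.ncard + X4.ncard) * q ^ (2 * n - 2 * m + 1) :=
          Nat.mul_le_mul_right _ hT1
      _ ≤ 6 * q ^ (12 * n + 6) := by linarith
  have hNq : N ≤ q ^ (2 * n - 2 * m + 1) := by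
    calc N ≤ 2 ^ N := Nat.lt_two_pow_self.le
      _ ≤ 2 ^ (2 * n - 2 * m + 1) := Nat.pow_le_pow_right (by norm_num) (by omega)
      _ ≤ q ^ (2 * n - 2 * m + 1) := Nat.pow_le_pow_left hq2 _
  have hsumR : (T : ℝ) * (q : ℝ) ^ (2 * n - 2 * m + 1) ≤ 6 * (q : ℝ) ^ (12 * n + 6) := by
    exact_mod_cast hsum
  have hNR : (N : ℝ) ≤ (q : ℝ) ^ (2 * n - 2 * m + 1) := by exact_mod_cast hNq
  have h6 : 6 ≤ ε * (q : ℝ) ^ (2 * n - 2 * m + 1) := by
    have : 6 < (N : ℝ) * ε := (div_lt_iff₀ hε).mp hN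
    nlinarith
  have hpos : (0 : ℝ) < (q : ℝ) ^ (2 * n - 2 * m + 1) := by
    have : (0 : ℝ) < (q : ℝ) := by exact_mod_cast (by omega : 0 < q)
    positivity
  have hQ : (0 : ℝ) ≤ (q : ℝ) ^ (12 * n + 6) := by positivity
  refine le_of_mul_le_mul_right ?_ hpos
  calc (T : ℝ) * (q : ℝ) ^ (2 * n - 2 * m + 1) ≤ 6 * (q : ℝ) ^ (12 * n + 6) := hsumR
    _ ≤ (ε * (q : ℝ) ^ (2 * n - 2 * m + 1)) * (q : ℝ) ^ (12 * n + 6) :=
        mul_le_mul_of_nonneg_right h6 hQ
    _ = ε * (q : ℝ) ^ (12 * n + 6) * (q : ℝ) ^ (2 * n - 2 * m + 1) := by ring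

end Pool.AVS
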