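import Pool.Agent.H99.AVR.CNB
import Pool.Agent.H14.AVS.S5

/-!
# AVS: counting symmetric matrices with one entry restricted
-/

set_option autoImplicit false

namespace Pool.AVS.Fib

open Polynomial Matrix Pool.AVR

variable {F : Type} [Field F]

/-- Replace the entries `(i, j)` and `(j, i)` by `p`. -/
def upd (i j : Fin 3) (B : Matrix (Fin 3) (Fin 3) F[X]) (p : F[X]) : Matrix (Fin 3) (Fin 3) F[X] :=
  Matrix.of fun a b => if (a = i ∧ b = j) ∨ (a = j ∧ b = i) then p else B a b

theorem upd_apply (i j : Fin 3) (B : Matrix (Fin 3) (Fin 3) F[X]) (p : F[X]) (a b : Fin 3) :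
    upd i j B p a b = if (a = i ∧ b = j) ∨ (a = j ∧ b = i) then p else B a b := rfl

theorem upd_self (i j : Fin 3) (B : Matrix (Fin 3) (Fin 3) F[X]) (p : F[X]) :
    upd i j B p i j = p := by
  simp [upd_apply]

theorem upd_upd (i j : Fin 3) (B : Matrix (Fin 3) (Fin 3) F[X]) (p q : F[X]) :
    upd i j (upd i j B p) q = upd i j B q := by
  ext1 a b
  simp only [upd_apply]
  split_ifs <;> rfl

theorem upd_id (i j : Fin 3) (B : Matrix (Fin 3) (Fin 3) F[X]) (hB : Bᵀ = B) :
    upd i j B (B i j) = B := by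
  ext1 a b
  simp only [upd_apply]
  split_ifs with h
  · rcases h with ⟨rfl, rfl⟩ | ⟨rfl, rfl⟩
    · rfl
    · exact congrFun (congrFun hB _) _
  · rfl

theorem upd_symm (i j : Fin 3) (B : Matrix (Fin 3) (Fin 3) F[X]) (hB : Bᵀ = B) (p : F[X]) :
    (upd i j B p)ᵀ = upd i j B p := by
  ext1 a b
  have h1 : B b a = B a b := congrFun (congrFun hB a) b
  simp only [Matrix.transpose_apply, upd_apply, h1]
  by_cases h : (a = i ∧ b = j) ∨ (a = j ∧ b = i)
  · have h' : (b = i ∧ a = j) ∨ (b = j ∧ a = i) := by tauto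
    rw [if_pos h, if_pos h']
  · have h' : ¬ ((b = i ∧ a = j) ∨ (b = j ∧ a = i)) := by tauto
    rw [if_neg h, if_neg h']

theorem upd_bd {n m : ℕ} (i j : Fin 3) (D : ℕ) (hD : (2 * n + dd m i + dd m j : ℤ) = D)
    (B : Matrix (Fin 3) (Fin 3) F[X]) (hB : Bd n m B) (p : F[X]) (hp : p.natDegree ≤ D) :
    Bd n m (upd i j B p) := by
  refine ⟨upd_symm i j B hB.1 p, ?_⟩
  intro a b hab
  rw [upd_apply] at hab ⊢
  split_ifs at hab ⊢ with h
  · rcases h with ⟨rfl, rfl⟩ | ⟨rfl, rfl⟩
    · rw [hD]; exact_mod_cast hp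
    · have : (2 * n + dd m a + dd m b : ℤ) = D := by rw [← hD]; ring
      rw [this]; exact_mod_cast hp
  · exact hB.2 a b hab

/-- If for given other entries at most `k` values of the entry `(i, j)` are allowed, the
proportion is at most `k / q^(D+1)`. -/
theorem fib [Finite F] {n m : ℕ} (hmn : m ≤ n) (i j : Fin 3) (D : ℕ)
    (hD : (2 * n + dd m i + dd m j : ℤ) = D) (X : Set (Matrix (Fin 3) (Fin 3) F[X]))
    (hX : ∀ B ∈ X, Bd n m B) (k : ℕ)
    (hk : ∀ B : Matrix (Fin 3) (Fin 3) F[X], Bᵀ = B → {p | upd i j B p ∈ X}.ncard ≤ k) :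
    X.ncard * Nat.card F ^ (D + 1) ≤ k * Nat.card F ^ (12 * n + 6) := by
  classical
  obtain ⟨hfin, hcard⟩ := cnb_thm F n m hmn
  have hXf : X.Finite := hfin.subset hX
  have hXn : X.ncard = hXf.toFinset.card := Set.ncard_eq_toFinset_card X hXf
  set A : Finset (Matrix (Fin 3) (Fin 3) F[X]) := hXf.toFinset.image (fun B => upd i j B 0) with hA
  have h1 : hXf.toFinset.card ≤ k * A.card := by
    refine Finset.card_le_mul_card_image _ k ?_
    intro a ha
    obtain ⟨B₀, hB₀, rfl⟩ := Finset.mem_image.mp ha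
    have hB₀' : B₀ ∈ X := hXf.mem_toFinset.mp hB₀
    have hfp : {p | upd i j B₀ p ∈ X}.Finite := by
      refine Set.Finite.of_finite_image (f := fun p => upd i j B₀ p)
        (hXf.subset ?_) ?_
      · rintro _ ⟨p, hp, rfl⟩
        exact hp
      · intro p _ q _ hpq
        have := congrFun (congrFun hpq i) j
        simpa only [upd_self] using this
    refine le_trans ?_ (hk B₀ (hX B₀ hB₀').1)
    rw [Set.ncard_eq_toFinset_card _ hfp]
    refine Finset.card_le_card_of_injOn (fun B => B i j) ?_ ?_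
    · intro B hB
      rw [Finset.mem_coe, Finset.mem_filter] at hB
      rw [Finset.mem_coe, Set.Finite.mem_toFinset, Set.mem_setOf_eq]
      have hBX : B ∈ X := hXf.mem_toFinset.mp hB.1
      have : upd i j B₀ (B i j) = B := by
        have h2 : upd i j (upd i j B 0) (B i j) = upd i j (upd i j B₀ 0) (B i j) := by rw [hB.2]
        rw [upd_upd, upd_upd, upd_id i j B (hX B hBX).1] at h2
        exact h2.symm
      rw [this]; exact hBX
    · intro B hB B' hB' hBB
      rw [Finset.mem_coe, Finset.mem_filter] at hB hB'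
      have e1 := upd_id i j B (hX B (hXf.mem_toFinset.mp hB.1)).1
      have e2 := upd_id i j B' (hX B' (hXf.mem_toFinset.mp hB'.1)).1
      rw [← e1, ← e2, ← upd_upd i j B 0, ← upd_upd i j B' 0, hB.2, hB'.2]
      simp only at hBB
      rw [hBB]
  have h2 : A.card * Nat.card F ^ (D + 1) ≤ Nat.card F ^ (12 * n + 6) := by
    refine le_trans ?_ hcard
    rw [← h95D_ncard F D, ← Set.ncard_coe_finset, ← Set.ncard_prod]
    refine Set.ncard_le_ncard_of_injOn (fun x => upd i j x.1 x.2) ?_ ?_ hfin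
    · rintro ⟨a, p⟩ ⟨ha, hp⟩
      obtain ⟨B, hB, rfl⟩ := Finset.mem_image.mp (Finset.mem_coe.mp ha)
      simp only [Set.mem_setOf_eq, upd_upd]
      exact upd_bd i j D hD B (hX B (hXf.mem_toFinset.mp hB)) p hp
    · rintro ⟨a, p⟩ ⟨ha, hp⟩ ⟨a', p'⟩ ⟨ha', hp'⟩ h
      obtain ⟨B, hB, rfl⟩ := Finset.mem_image.mp (Finset.mem_coe.mp ha)
      obtain ⟨B', hB', rfl⟩ := Finset.mem_image.mp (Finset.mem_coe.mp ha')
      simp only [upd_upd] at h
      have hpp : p = p' := by
        have := congrFun (congrFun h i) j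
        simpa only [upd_self] using this
      have h3 : upd i j (upd i j B p) 0 = upd i j (upd i j B' p') 0 := by rw [h]
      rw [upd_upd, upd_upd] at h3
      rw [h3, hpp]
  rw [hXn]
  calc hXf.toFinset.card * Nat.card F ^ (D + 1) ≤ (k * A.card) * Nat.card F ^ (D + 1) :=
        Nat.mul_le_mul_right _ h1
    _ = k * (A.card * Nat.card F ^ (D + 1)) := by ring
    _ ≤ k * Nat.card F ^ (12 * n + 6) := Nat.mul_le_mul_left _ h2

end Pool.AVS.Fib
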